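import Mathlib

/-!
# Logarithmic growth of mollified fractional seminorms does not give Besov regularity

`N = d = 1`, `q = 2`.  The function `u(x) = ∑_j j ψ(N_j (x - 3 j))`, with `ψ = Ψ'` a fixed bump and
`N_j = 2^(4^j)`, is in `L²(ℝ)`, and for every `η ∈ W^{1,1}(ℝ)` the seminorms of `η_ε * u` in
`W^{1/2,2}` grow at most like `|log ε|`; but `u` is not in `B^{1/2}_{2,∞}(ℝ)`.
-/

set_option autoImplicit false

open MeasureTheory Set Filter Topology
open scoped ENNReal NNReal ContDiff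

namespace Pool.Agent.Results.MP_498700_an.LacunaryBumps

/-- `[v]^2` in `W^{1/2,2}(ℝ)`: the double integral of `|v(x) - v(y)|^2 / |x - y|^2`. -/
noncomputable def gagliardo (v : ℝ → ℝ) : ℝ≥0∞ :=
  ∫⁻ x, ∫⁻ y, ENNReal.ofReal (|v x - v y| ^ 2 / |x - y| ^ 2)

/-- `u_ε(x) = ∫ η(z) u(x - ε z) dz`. -/
noncomputable def mollify (η : ℝ → ℝ) (ε : ℝ) (u : ℝ → ℝ) (x : ℝ) : ℝ :=
  ∫ z, η z * u (x - ε * z)

/-- `η ∈ W^{1,1}(ℝ)` with weak derivative `η'`. -/
structure HasWeakDeriv (η η' : ℝ → ℝ) : Prop where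
  int : Integrable η
  int' : Integrable η'
  parts : ∀ φ : ℝ → ℝ, ContDiff ℝ ∞ φ → HasCompactSupport φ →
    ∫ x, η x * deriv φ x = - ∫ x, η' x * φ x

/-- `[u]^2` in `B^{1/2}_{2,∞}(ℝ)`: the supremum over `h ≠ 0` of `∫ |u(x+h) - u(x)|^2 / |h| dx`. -/
noncomputable def besov (u : ℝ → ℝ) : ℝ≥0∞ :=
  ⨆ (h : ℝ) (_ : h ≠ 0), ∫⁻ x, ENNReal.ofReal (|u (x + h) - u x| ^ 2 / |h|)

/-! ### the Gagliardo seminorm -/

theorem kern_meas {F : ℝ → ℝ} (hF : Measurable F) :
    Measurable fun p : ℝ × ℝ => ENNReal.ofReal (|F p.1 - F p.2| ^ 2 / |p.1 - p.2| ^ 2) := by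
  fun_prop

theorem lint_scale (g : ℝ → ℝ≥0∞) (hg : Measurable g) {M : ℝ} (hM : 0 < M) (p : ℝ) :
    ∫⁻ x, g (M * (x - p)) = ENNReal.ofReal M⁻¹ * ∫⁻ x, g x := by
  rw [lintegral_sub_right_eq_self (fun x => g (M * x)) p]
  have h1 : ∫⁻ x, g (M * x) = ∫⁻ y, g y ∂(Measure.map (M * ·) volume) :=
    (lintegral_map hg (measurable_const_mul M)).symm
  rw [h1, Real.map_volume_mul_left hM.ne', lintegral_smul_measure, abs_of_pos (inv_pos.2 hM),
    smul_eq_mul]

theorem gag_scale {F : ℝ → ℝ} (hF : Measurable F) (c p : ℝ) {M : ℝ} (hM : 0 < M) :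
    gagliardo (fun x => c * F (M * (x - p))) = ENNReal.ofReal (c ^ 2) * gagliardo F := by
  unfold gagliardo
  set k : ℝ → ℝ → ℝ≥0∞ := fun s t => ENNReal.ofReal (|F s - F t| ^ 2 / |s - t| ^ 2) with hk
  have hkm : Measurable fun p : ℝ × ℝ => k p.1 p.2 := kern_meas hF
  have hkm2 : ∀ s, Measurable (k s) := fun s => hkm.comp (measurable_const.prodMk measurable_id)
  have hkm3 : Measurable fun s => ∫⁻ t, k s t := hkm.lintegral_prod_right
  have e1 : ∀ x y, ENNReal.ofReal (|c * F (M * (x - p)) - c * F (M * (y - p))| ^ 2 / |x - y| ^ 2) =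
      ENNReal.ofReal (c ^ 2 * M ^ 2) * k (M * (x - p)) (M * (y - p)) := by
    intro x y
    simp only [hk]
    rw [← ENNReal.ofReal_mul (by positivity)]
    congr 1
    have e2 : M * (x - p) - M * (y - p) = M * (x - y) := by ring
    rw [e2, ← mul_sub, abs_mul, abs_mul, mul_pow, mul_pow, sq_abs c, sq_abs M]
    by_cases h : |x - y| = 0
    · rw [h]; simp
    · field_simp
  simp_rw [e1]
  have e3 : ∀ x, ∫⁻ y, ENNReal.ofReal (c ^ 2 * M ^ 2) * k (M * (x - p)) (M * (y - p)) =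
      ENNReal.ofReal (c ^ 2 * M ^ 2) * (ENNReal.ofReal M⁻¹ * ∫⁻ t, k (M * (x - p)) t) := by
    intro x
    rw [lintegral_const_mul' _ _ ENNReal.ofReal_ne_top, lint_scale _ (hkm2 _) hM]
  simp_rw [e3]
  rw [lintegral_const_mul' _ _ ENNReal.ofReal_ne_top,
    lintegral_const_mul' _ _ ENNReal.ofReal_ne_top,
    lint_scale (fun s => ∫⁻ t, k s t) hkm3 hM, ← mul_assoc, ← mul_assoc,
    ← ENNReal.ofReal_mul (by positivity), ← ENNReal.ofReal_mul (by positivity)]
  congr 2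
  field_simp

theorem gag_finite {F : ℝ → ℝ} {L B : ℝ} (hB : ∀ x, |F x| ≤ B)
    (hlip : ∀ x y, |F x - F y| ≤ L * |x - y|) (hs : ∀ x, 1 / 2 < |x| → F x = 0) :
    gagliardo F < ⊤ := by
  set S : Set ℝ := {x | |x| ≤ 1 / 2} with hS
  have hSm : MeasurableSet S := measurableSet_le (by fun_prop) (by fun_prop)
  have hSv : volume S ≠ ⊤ := by
    have : S = Icc (-(1 / 2)) (1 / 2) := by
      ext x
      simp [hS, abs_le]
    rw [this, Real.volume_Icc]
    exact ENNReal.ofReal_ne_top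
  set C : ℝ := 5 * L ^ 2 + 3 * B ^ 2 with hC
  have hC0 : 0 ≤ C := by positivity
  have one : ∀ x y : ℝ, |x| ≤ 1 / 2 → |F x - F y| ^ 2 / |x - y| ^ 2 ≤ C * (1 + y ^ 2)⁻¹ := by
    intro x y hx
    rw [← div_eq_mul_inv]
    rcases le_or_gt |y| 2 with hy | hy
    · have h1 : |F x - F y| ^ 2 / |x - y| ^ 2 ≤ L ^ 2 := by
        apply div_le_of_le_mul₀ (by positivity) (by positivity)
        rw [← mul_pow]
        exact pow_le_pow_left₀ (abs_nonneg _) (hlip x y) 2
      refine h1.trans ?_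
      rw [le_div_iff₀ (by positivity)]
      have h2 : y ^ 2 ≤ 4 := by
        rw [← sq_abs]
        nlinarith [abs_nonneg y]
      nlinarith [sq_nonneg L, sq_nonneg B]
    · have h0 : F y = 0 := hs y (by linarith)
      have h3 : |y| - 1 / 2 ≤ |x - y| := by
        have := abs_sub_abs_le_abs_sub y x
        rw [abs_sub_comm y x] at this
        linarith
      have h4 : 3 / 4 * |y| ≤ |x - y| := by linarith
      have h5 : 0 < |x - y| := by linarith
      rw [h0, sub_zero, div_le_div_iff₀ (by positivity) (by positivity)]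
      have h6 : (3 / 4 * |y|) ^ 2 ≤ |x - y| ^ 2 := pow_le_pow_left₀ (by positivity) h4 2
      rw [mul_pow, sq_abs] at h6
      have h7 : |F x| ^ 2 ≤ B ^ 2 := pow_le_pow_left₀ (abs_nonneg _) (hB x) 2
      have h8 : 4 ≤ y ^ 2 := by
        rw [← sq_abs]
        nlinarith
      calc |F x| ^ 2 * (1 + y ^ 2) ≤ B ^ 2 * (1 + y ^ 2) := by gcongr
        _ ≤ C * |x - y| ^ 2 := by
          have h9 : 1 + y ^ 2 ≤ 3 * |x - y| ^ 2 := by nlinarith
          nlinarith [sq_nonneg L, sq_nonneg B, mul_nonneg (sq_nonneg L) (sq_nonneg |x - y|),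
            mul_le_mul_of_nonneg_left h9 (sq_nonneg B)]
  have bound : ∀ x y : ℝ, ENNReal.ofReal (|F x - F y| ^ 2 / |x - y| ^ 2) ≤
      S.indicator (fun _ => (1 : ℝ≥0∞)) x * ENNReal.ofReal (C * (1 + y ^ 2)⁻¹) +
        ENNReal.ofReal (C * (1 + x ^ 2)⁻¹) * S.indicator (fun _ => (1 : ℝ≥0∞)) y := by
    intro x y
    by_cases hx : x ∈ S
    · rw [indicator_of_mem hx, one_mul]
      exact (ENNReal.ofReal_le_ofReal (one x y hx)).trans le_self_add
    · by_cases hy : y ∈ S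
      · rw [indicator_of_mem hy, mul_one]
        have := one y x hy
        rw [abs_sub_comm (F y), abs_sub_comm y] at this
        exact (ENNReal.ofReal_le_ofReal this).trans le_add_self
      · have h1 : F x = 0 := hs x (not_le.1 hx)
        have h2 : F y = 0 := hs y (not_le.1 hy)
        rw [h1, h2]
        simp
  have hI : ∫⁻ y : ℝ, ENNReal.ofReal (C * (1 + y ^ 2)⁻¹) ≠ ⊤ :=
    (integrable_inv_one_add_sq.const_mul C).lintegral_lt_top.ne
  set I : ℝ≥0∞ := ∫⁻ y : ℝ, ENNReal.ofReal (C * (1 + y ^ 2)⁻¹) with hIdef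
  unfold gagliardo
  calc ∫⁻ x, ∫⁻ y, ENNReal.ofReal (|F x - F y| ^ 2 / |x - y| ^ 2)
      ≤ ∫⁻ x, ∫⁻ y, (S.indicator (fun _ => (1 : ℝ≥0∞)) x * ENNReal.ofReal (C * (1 + y ^ 2)⁻¹) +
        ENNReal.ofReal (C * (1 + x ^ 2)⁻¹) * S.indicator (fun _ => (1 : ℝ≥0∞)) y) :=
        lintegral_mono fun x => lintegral_mono fun y => bound x y
    _ = ∫⁻ x, (S.indicator (fun _ => (1 : ℝ≥0∞)) x * I +
        ENNReal.ofReal (C * (1 + x ^ 2)⁻¹) * volume S) := by
        refine lintegral_congr fun x => ?_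
        rw [lintegral_add_right _ ((measurable_const.indicator hSm).const_mul _),
          lintegral_const_mul' _ _ (by
            rw [indicator_apply]
            split_ifs <;> simp), lintegral_const_mul' _ _ ENNReal.ofReal_ne_top,
          lintegral_indicator_const hSm, one_mul]
    _ = volume S * I + I * volume S := by
        rw [lintegral_add_left ((measurable_const.indicator hSm).mul_const _),
          lintegral_mul_const' _ _ hI, lintegral_mul_const' _ _ hSv,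
          lintegral_indicator_const hSm, one_mul]
    _ < ⊤ := by
        rw [ENNReal.add_lt_top]
        exact ⟨ENNReal.mul_lt_top hSv.lt_top hI.lt_top, ENNReal.mul_lt_top hI.lt_top hSv.lt_top⟩

/-! ### mollification -/

theorem mol_int {ζ f : ℝ → ℝ} (hζ : Integrable ζ) (hf : Continuous f) {B : ℝ}
    (hB : ∀ x, |f x| ≤ B) (ε x : ℝ) : Integrable fun z => ζ z * f (x - ε * z) :=
  hζ.mul_bdd (c := B) (by fun_prop) (Eventually.of_forall fun z => hB _)

theorem cs (ζ D : ℝ → ℝ≥0∞) (hζ : Measurable ζ) (hD : Measurable D) :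
    (∫⁻ z, ζ z * D z) ^ 2 ≤ (∫⁻ z, ζ z) * ∫⁻ z, ζ z * D z ^ 2 := by
  have h := ENNReal.lintegral_mul_le_Lp_mul_Lq (μ := volume) (p := 2) (q := 2)
    Real.HolderConjugate.two_two (f := fun z => ζ z ^ (1 / 2 : ℝ))
    (g := fun z => ζ z ^ (1 / 2 : ℝ) * D z) (by fun_prop) (by fun_prop)
  have e1 : ∀ z, ((fun z => ζ z ^ (1 / 2 : ℝ)) * fun z => ζ z ^ (1 / 2 : ℝ) * D z) z = ζ z * D z := by
    intro z
    simp only [Pi.mul_apply]
    rw [← mul_assoc, ← ENNReal.rpow_add_of_nonneg _ _ (by norm_num) (by norm_num)]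
    norm_num
  have e2 : ∀ z, (ζ z ^ (1 / 2 : ℝ)) ^ (2 : ℝ) = ζ z := by
    intro z
    rw [← ENNReal.rpow_mul]
    norm_num
  have e3 : ∀ z, (ζ z ^ (1 / 2 : ℝ) * D z) ^ (2 : ℝ) = ζ z * D z ^ 2 := by
    intro z
    rw [ENNReal.mul_rpow_of_nonneg _ _ (by norm_num), e2]
    norm_num
  simp only [e1, e2, e3] at h
  calc (∫⁻ z, ζ z * D z) ^ 2 ≤
      ((∫⁻ z, ζ z) ^ (1 / 2 : ℝ) * (∫⁻ z, ζ z * D z ^ 2) ^ (1 / 2 : ℝ)) ^ 2 := by gcongr
    _ = _ := by
      rw [mul_pow, ← ENNReal.rpow_natCast, ← ENNReal.rpow_natCast, ← ENNReal.rpow_mul,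
        ← ENNReal.rpow_mul]
      norm_num

theorem triple {w : ℝ → ℝ≥0∞} (hw : Measurable w) (hwt : ∀ z, w z ≠ ⊤) {k : ℝ → ℝ → ℝ≥0∞}
    (hkm : Measurable fun p : ℝ × ℝ => k p.1 p.2) (ε : ℝ) :
    ∫⁻ x, ∫⁻ y, ∫⁻ z, w z * k (x - ε * z) (y - ε * z) = (∫⁻ z, w z) * ∫⁻ x, ∫⁻ y, k x y := by
  calc ∫⁻ x, ∫⁻ y, ∫⁻ z, w z * k (x - ε * z) (y - ε * z)
      = ∫⁻ x, ∫⁻ z, ∫⁻ y, w z * k (x - ε * z) (y - ε * z) := by
        refine lintegral_congr fun x => ?_
        refine lintegral_lintegral_swap ?_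
        refine Measurable.aemeasurable ?_
        have h1 : Measurable fun p : ℝ × ℝ => (x - ε * p.2, p.1 - ε * p.2) := by fun_prop
        exact (hw.comp measurable_snd).mul (hkm.comp h1)
    _ = ∫⁻ z, ∫⁻ x, ∫⁻ y, w z * k (x - ε * z) (y - ε * z) := by
        refine lintegral_lintegral_swap ?_
        refine Measurable.aemeasurable ?_
        have h1 : Measurable fun q : (ℝ × ℝ) × ℝ => (q.1.1 - ε * q.1.2, q.2 - ε * q.1.2) := by
          fun_prop
        have h2 : Measurable fun q : (ℝ × ℝ) × ℝ =>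
            w q.1.2 * k (q.1.1 - ε * q.1.2) (q.2 - ε * q.1.2) :=
          (hw.comp (measurable_snd.comp measurable_fst)).mul (hkm.comp h1)
        exact h2.lintegral_prod_right'
    _ = ∫⁻ z, w z * ∫⁻ x, ∫⁻ y, k x y := by
        refine lintegral_congr fun z => ?_
        have e1 : ∀ x, ∫⁻ y, w z * k (x - ε * z) (y - ε * z) =
            w z * ∫⁻ y, k (x - ε * z) y := by
          intro x
          rw [lintegral_const_mul' _ _ (hwt z),
            lintegral_sub_right_eq_self (fun y => k (x - ε * z) y) (ε * z)]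
        simp_rw [e1]
        rw [lintegral_const_mul' _ _ (hwt z),
          lintegral_sub_right_eq_self (fun x => ∫⁻ y, k x y) (ε * z)]
    _ = (∫⁻ z, w z) * ∫⁻ x, ∫⁻ y, k x y := lintegral_mul_const _ hw

theorem gag_mollify {ζ f : ℝ → ℝ} (hζ : Integrable ζ) (hf : Continuous f) {B : ℝ}
    (hB : ∀ x, |f x| ≤ B) (ε : ℝ) :
    gagliardo (mollify ζ ε f) ≤ (∫⁻ z, ‖ζ z‖ₑ) ^ 2 * gagliardo f := by
  -- a measurable version of `ζ`
  obtain ⟨ζ', hζ'm, hζ'⟩ := hζ.1.aemeasurable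
  have e0 : mollify ζ ε f = mollify ζ' ε f := by
    funext x
    unfold mollify
    refine integral_congr_ae ?_
    filter_upwards [hζ'] with z hz
    rw [hz]
  have e00 : ∫⁻ z, ‖ζ z‖ₑ = ∫⁻ z, ‖ζ' z‖ₑ := by
    refine lintegral_congr_ae ?_
    filter_upwards [hζ'] with z hz
    rw [hz]
  have hζi : Integrable ζ' := hζ.congr hζ'
  rw [e0, e00]
  set A : ℝ≥0∞ := ∫⁻ z, ‖ζ' z‖ₑ with hA
  have hAt : A ≠ ⊤ := hζi.2.ne
  set k : ℝ → ℝ → ℝ≥0∞ := fun s t => ENNReal.ofReal (|f s - f t| ^ 2 / |s - t| ^ 2) with hk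
  have hkm : Measurable fun p : ℝ × ℝ => k p.1 p.2 := kern_meas hf.measurable
  have hpt : ∀ x y, ENNReal.ofReal (|mollify ζ' ε f x - mollify ζ' ε f y| ^ 2 / |x - y| ^ 2) ≤
      A * ∫⁻ z, ‖ζ' z‖ₑ * k (x - ε * z) (y - ε * z) := by
    intro x y
    have h1 : mollify ζ' ε f x - mollify ζ' ε f y =
        ∫ z, ζ' z * (f (x - ε * z) - f (y - ε * z)) := by
      unfold mollify
      rw [← integral_sub (mol_int hζi hf hB ε x) (mol_int hζi hf hB ε y)]
      refine integral_congr_ae (Eventually.of_forall fun z => ?_)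
      simp only
      ring
    have h2 : ENNReal.ofReal |mollify ζ' ε f x - mollify ζ' ε f y| ≤
        ∫⁻ z, ‖ζ' z‖ₑ * ‖f (x - ε * z) - f (y - ε * z)‖ₑ := by
      rw [h1, ← Real.norm_eq_abs, ofReal_norm]
      refine (enorm_integral_le_lintegral_enorm _).trans (le_of_eq ?_)
      refine lintegral_congr fun z => ?_
      rw [enorm_mul]
    have h3 := cs (fun z => ‖ζ' z‖ₑ) (fun z => ‖f (x - ε * z) - f (y - ε * z)‖ₑ)
      (by fun_prop) (by fun_prop)
    rw [div_eq_mul_inv, ENNReal.ofReal_mul (by positivity), ENNReal.ofReal_pow (abs_nonneg _)]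
    calc ENNReal.ofReal |mollify ζ' ε f x - mollify ζ' ε f y| ^ 2 *
          ENNReal.ofReal (|x - y| ^ 2)⁻¹
        ≤ (A * ∫⁻ z, ‖ζ' z‖ₑ * ‖f (x - ε * z) - f (y - ε * z)‖ₑ ^ 2) *
          ENNReal.ofReal (|x - y| ^ 2)⁻¹ := by
          gcongr
          exact (pow_le_pow_left₀ zero_le h2 2).trans h3
      _ = A * ∫⁻ z, ‖ζ' z‖ₑ * k (x - ε * z) (y - ε * z) := by
          rw [mul_assoc, ← lintegral_mul_const' _ _ ENNReal.ofReal_ne_top]
          congr 1
          refine lintegral_congr fun z => ?_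
          rw [mul_assoc]
          congr 1
          simp only [hk]
          have e1 : x - ε * z - (y - ε * z) = x - y := by ring
          rw [e1, div_eq_mul_inv (|f (x - ε * z) - f (y - ε * z)| ^ 2),
            ENNReal.ofReal_mul (by positivity), ENNReal.ofReal_pow (abs_nonneg _),
            ← Real.norm_eq_abs (f (x - ε * z) - f (y - ε * z)), ofReal_norm]
  unfold gagliardo
  calc ∫⁻ x, ∫⁻ y, ENNReal.ofReal (|mollify ζ' ε f x - mollify ζ' ε f y| ^ 2 / |x - y| ^ 2)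
      ≤ ∫⁻ x, ∫⁻ y, A * ∫⁻ z, ‖ζ' z‖ₑ * k (x - ε * z) (y - ε * z) :=
        lintegral_mono fun x => lintegral_mono fun y => hpt x y
    _ = A * ∫⁻ x, ∫⁻ y, ∫⁻ z, ‖ζ' z‖ₑ * k (x - ε * z) (y - ε * z) := by
        rw [← lintegral_const_mul' _ _ hAt]
        refine lintegral_congr fun x => ?_
        rw [← lintegral_const_mul' _ _ hAt]
    _ = A ^ 2 * gagliardo f := by
        rw [triple hζ'm.enorm (fun z => enorm_ne_top) hkm ε, ← hA, sq, mul_assoc]
        rfl

theorem sq_sum_le (n : ℕ) : ∀ x : ℕ → ℝ≥0∞,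
    (∑ j ∈ Finset.range n, x j) ^ 2 ≤ ∑ j ∈ Finset.range n, 2 ^ (j + 1) * x j ^ 2 := by
  have two : ∀ a b : ℝ≥0∞, (a + b) ^ 2 ≤ 2 * a ^ 2 + 2 * b ^ 2 := by
    intro a b
    have := ENNReal.rpow_add_le_mul_rpow_add_rpow a b (p := 2) (by norm_num)
    have e : (2 : ℝ≥0∞) ^ ((2 : ℝ) - 1) = 2 := by norm_num
    rw [e] at this
    rw [← mul_add]
    exact_mod_cast this
  induction n with
  | zero => intro x; simp
  | succ n ih =>
    intro x
    rw [Finset.sum_range_succ', Finset.sum_range_succ']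
    refine (two _ _).trans ?_
    have h1 := ih fun j => x (j + 1)
    gcongr ?_ + ?_
    · calc 2 * (∑ j ∈ Finset.range n, x (j + 1)) ^ 2
          ≤ 2 * ∑ j ∈ Finset.range n, 2 ^ (j + 1) * x (j + 1) ^ 2 := by gcongr
        _ = _ := by
          rw [Finset.mul_sum]
          refine Finset.sum_congr rfl fun j _ => ?_
          ring
    · simp

theorem sq_tsum_le (x : ℕ → ℝ≥0∞) : (∑' j, x j) ^ 2 ≤ ∑' j, 2 ^ (j + 1) * x j ^ 2 := by
  have h1 : Tendsto (fun n => (∑ j ∈ Finset.range n, x j) ^ 2) atTop (𝓝 ((∑' j, x j) ^ 2)) :=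
    (ENNReal.continuous_pow 2).continuousAt.tendsto.comp (ENNReal.tendsto_nat_tsum x)
  refine le_of_tendsto' h1 fun n => (sq_sum_le n x).trans ?_
  exact ENNReal.sum_le_tsum _

/-! ### the bump -/

/-- the smooth bump `Ψ`. -/
noncomputable def bump : ContDiffBump (0 : ℝ) := ⟨1 / 8, 1 / 4, by norm_num, by norm_num⟩

/-- `Ψ`. -/
noncomputable def Psi (x : ℝ) : ℝ := bump x

/-- `ψ = Ψ'`. -/
noncomputable def psi (x : ℝ) : ℝ := deriv Psi x

theorem Psi_smooth : ContDiff ℝ ∞ Psi := bump.contDiff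

theorem psi_smooth : ContDiff ℝ ∞ psi := by
  have := Psi_smooth
  have h2 : ContDiff ℝ (((⊤ : ℕ∞) : WithTop ℕ∞) + 1) Psi := by simpa using this
  exact (contDiff_succ_iff_deriv.1 h2).2.2

theorem Psi_zero {x : ℝ} (hx : 1 / 4 < |x|) : Psi x = 0 := by
  apply bump.zero_of_le_dist
  rw [dist_zero_right, Real.norm_eq_abs]
  exact hx.le

theorem psi_zero {x : ℝ} (hx : 1 / 4 < |x|) : psi x = 0 := by
  have h1 : Psi =ᶠ[𝓝 x] fun _ => 0 := by
    have : {y : ℝ | 1 / 4 < |y|} ∈ 𝓝 x :=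
      (isOpen_lt continuous_const continuous_abs).mem_nhds hx
    filter_upwards [this] with y hy
    exact Psi_zero hy
  unfold psi
  rw [h1.deriv_eq]
  simp

theorem Psi_compact : HasCompactSupport Psi :=
  HasCompactSupport.intro (K := Icc (-(1 / 4)) (1 / 4)) isCompact_Icc fun x hx => by
    apply Psi_zero
    by_contra h
    exact hx (abs_le.1 (not_lt.1 h))

theorem psi_compact : HasCompactSupport psi :=
  HasCompactSupport.intro (K := Icc (-(1 / 4)) (1 / 4)) isCompact_Icc fun x hx => by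
    apply psi_zero
    by_contra h
    exact hx (abs_le.1 (not_lt.1 h))

theorem bdd_of {F : ℝ → ℝ} (h1 : ContDiff ℝ ∞ F) (h2 : HasCompactSupport F) :
    ∃ B L : ℝ, (∀ x, |F x| ≤ B) ∧ ∀ x y, |F x - F y| ≤ L * |x - y| := by
  obtain ⟨B, hB⟩ := h1.continuous.bounded_above_of_compact_support h2
  obtain ⟨L, hL⟩ := h1.lipschitzWith_of_hasCompactSupport h2 (by simp)
  refine ⟨B, L, hB, fun x y => ?_⟩
  have := hL.dist_le_mul x y
  rwa [Real.dist_eq, Real.dist_eq] at this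

theorem psi_ne : ∃ x, psi x ≠ 0 := by
  by_contra h
  push Not at h
  have hd : Differentiable ℝ Psi := Psi_smooth.differentiable (by simp)
  have := is_const_of_deriv_eq_zero hd h 0 1
  have h0 : Psi 0 = 1 := by
    apply bump.one_of_mem_closedBall
    simp [bump]
  have h1 : Psi 1 = 0 := Psi_zero (by norm_num)
  rw [h0, h1] at this
  norm_num at this

theorem psi_int_pos : 0 < ∫⁻ x, ENNReal.ofReal (psi x ^ 2) := by
  rw [lintegral_pos_iff_support (by
    have := psi_smooth.continuous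
    fun_prop)]
  obtain ⟨x, hx⟩ := psi_ne
  have h1 : IsOpen {y | psi y ≠ 0} := isOpen_ne_fun psi_smooth.continuous continuous_const
  have h2 : 0 < volume {y | psi y ≠ 0} := h1.measure_pos _ ⟨x, hx⟩
  refine h2.trans_le (measure_mono fun y hy => ?_)
  simp only [Function.mem_support, ne_eq, ENNReal.ofReal_eq_zero, not_le]
  exact pow_pos_of_ne_zero y hy
where pow_pos_of_ne_zero (y : ℝ) (hy : psi y ≠ 0) : 0 < psi y ^ 2 := by positivity

/-- the scales. -/
noncomputable def N (j : ℕ) : ℝ := 2 ^ (4 ^ j)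

theorem N_ge (j : ℕ) : 2 * 8 ^ j ≤ N j := by
  have h1 : 3 * j + 1 ≤ 4 ^ j := by
    induction j with
    | zero => simp
    | succ n ih => rw [pow_succ]; omega
  have h2 : (2 : ℝ) * 8 ^ j = 2 ^ (3 * j + 1) := by
    rw [pow_succ, pow_mul]
    norm_num
    ring
  rw [h2]
  exact pow_le_pow_right₀ (by norm_num) h1

theorem N_pos (j : ℕ) : 0 < N j := by unfold N; positivity

theorem N_ge_two (j : ℕ) : 2 ≤ N j := by
  have h1 := N_ge j
  have h2 : (1 : ℝ) ≤ 8 ^ j := one_le_pow₀ (by norm_num)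
  linarith

/-- the pieces `u_j`. -/
noncomputable def piece (F : ℝ → ℝ) (j : ℕ) (x : ℝ) : ℝ := j * F (N j * (x - 3 * j))

/-- the function `u`. -/
noncomputable def u (x : ℝ) : ℝ := ∑' j, piece psi j x

theorem piece_zero {i : ℕ} {x : ℝ} (h : 1 ≤ |x - 3 * i|) : piece psi i x = 0 := by
  unfold piece
  rw [psi_zero, mul_zero]
  rw [abs_mul, abs_of_pos (N_pos i)]
  have := N_ge_two i
  nlinarith

theorem piece_other {i j : ℕ} {x : ℝ} (h : |x - 3 * j| ≤ 3 / 2) (hij : i ≠ j) :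
    piece psi i x = 0 := by
  apply piece_zero
  have h1 : (1 : ℝ) ≤ |(i : ℝ) - j| := by
    have : (1 : ℤ) ≤ |(i : ℤ) - j| := Int.one_le_abs (by omega)
    exact_mod_cast this
  have h2 : |3 * (i : ℝ) - 3 * j| ≤ |x - 3 * j| + |x - 3 * i| := by
    have := abs_sub (x - 3 * j) (x - 3 * i)
    have e : (x - 3 * (j : ℝ)) - (x - 3 * i) = 3 * i - 3 * j := by ring
    rwa [e] at this
  rw [← mul_sub, abs_mul, abs_of_pos (by norm_num : (0 : ℝ) < 3)] at h2
  linarith

theorem u_near {j : ℕ} {x : ℝ} (h : |x - 3 * j| ≤ 3 / 2) : u x = piece psi j x :=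
  tsum_eq_single j fun _ hi => piece_other h hi

theorem piece_smooth (F : ℝ → ℝ) (hF : Continuous F) (j : ℕ) : Continuous (piece F j) := by
  unfold piece
  fun_prop

theorem finite_support (x : ℝ) : (Function.support fun j => piece psi j x).Finite := by
  by_cases h : ∃ j : ℕ, |x - 3 * j| ≤ 3 / 2
  · obtain ⟨j, hj⟩ := h
    refine (Set.finite_singleton j).subset fun i hi => ?_
    by_contra hne
    exact hi (piece_other hj hne)
  · push Not at h
    have : (Function.support fun j => piece psi j x) = ∅ := by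
      ext i
      simp only [Function.mem_support, mem_empty_iff_false, iff_false, not_not]
      exact piece_zero (by linarith [h i])
    rw [this]
    exact Set.finite_empty

theorem summable_piece (x : ℝ) : Summable fun j => piece psi j x :=
  summable_of_hasFiniteSupport (finite_support x)

theorem u_meas : Measurable u := by
  refine measurable_of_tendsto_metrizable (f := fun n x => ∑ j ∈ Finset.range n, piece psi j x)
    (fun n => ?_) ?_
  · refine Finset.measurable_sum _ fun j _ => (piece_smooth psi psi_smooth.continuous j).measurable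
  · rw [tendsto_pi_nhds]
    intro x
    exact (summable_piece x).hasSum.tendsto_sum_nat

theorem besov_top : besov u = ⊤ := by
  set I : ℝ≥0∞ := ∫⁻ x, ENNReal.ofReal (psi x ^ 2) with hI
  have key : ∀ j : ℕ, ENNReal.ofReal (j ^ 2) * I ≤ besov u := by
    intro j
    have hN := N_pos j
    have h1 : ∫⁻ x, ENNReal.ofReal (|u (x + (N j)⁻¹) - u x| ^ 2 / |(N j)⁻¹|) ≤ besov u := by
      unfold besov
      exact le_iSup₂ (f := fun (h : ℝ) (_ : h ≠ 0) =>
        ∫⁻ x, ENNReal.ofReal (|u (x + h) - u x| ^ 2 / |h|)) (N j)⁻¹ (inv_ne_zero hN.ne')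
    refine le_trans ?_ h1
    have h2 : ENNReal.ofReal (j ^ 2) * I = ENNReal.ofReal (j ^ 2 * N j) *
        ∫⁻ x, ENNReal.ofReal (psi (N j * (x - 3 * j)) ^ 2) := by
      rw [lint_scale (fun t => ENNReal.ofReal (psi t ^ 2)) (by
        have := psi_smooth.continuous
        fun_prop) hN, ← mul_assoc, ← ENNReal.ofReal_mul (by positivity), mul_assoc,
        mul_inv_cancel₀ hN.ne', mul_one]
    rw [h2, ← lintegral_const_mul' _ _ ENNReal.ofReal_ne_top]
    refine lintegral_mono fun x => ?_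
    simp only
    rw [← ENNReal.ofReal_mul (by positivity)]
    refine ENNReal.ofReal_le_ofReal ?_
    by_cases hx : psi (N j * (x - 3 * j)) = 0
    · rw [hx]
      simp only [ne_eq, OfNat.ofNat_ne_zero, not_false_eq_true, zero_pow, mul_zero]
      positivity
    · have h3 : |N j * (x - 3 * j)| ≤ 1 / 4 := by
        by_contra h
        exact hx (psi_zero (not_le.1 h))
      have h4 : |x - 3 * j| ≤ 1 / 4 := by
        rw [abs_mul, abs_of_pos hN] at h3
        have := N_ge_two j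
        nlinarith [abs_nonneg (x - 3 * j)]
      have h5 : (N j)⁻¹ ≤ 1 / 2 := by
        rw [one_div]
        exact inv_anti₀ (by norm_num) (N_ge_two j)
      have h6 : |x + (N j)⁻¹ - 3 * j| ≤ 3 / 2 := by
        have := abs_add_le (x - 3 * j) (N j)⁻¹
        rw [abs_of_pos (inv_pos.2 hN)] at this
        have e : x + (N j)⁻¹ - 3 * j = x - 3 * j + (N j)⁻¹ := by ring
        rw [e]
        linarith
      rw [u_near (by linarith : |x - 3 * j| ≤ 3 / 2), u_near h6]
      have h7 : piece psi j (x + (N j)⁻¹) = 0 := by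
        unfold piece
        rw [psi_zero, mul_zero]
        have e : N j * (x + (N j)⁻¹ - 3 * j) = N j * (x - 3 * j) + 1 := by
          field_simp
          ring
        rw [e]
        have := (abs_le.1 h3).1
        rw [abs_of_pos (by linarith)]
        linarith
      rw [h7, zero_sub, abs_neg, sq_abs, abs_of_pos (inv_pos.2 hN)]
      unfold piece
      rw [div_inv_eq_mul, mul_pow]
      apply le_of_eq
      ring
  by_contra hne
  have hI0 : I ≠ 0 := psi_int_pos.ne'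
  obtain ⟨n, hn⟩ := ENNReal.exists_nat_mul_gt hI0 hne
  have h1 := key n
  have h2 : (n : ℝ≥0∞) ≤ ENNReal.ofReal ((n : ℝ) ^ 2) := by
    rw [← ENNReal.ofReal_natCast]
    refine ENNReal.ofReal_le_ofReal ?_
    exact_mod_cast Nat.le_self_pow (by norm_num) n
  have h3 : (n : ℝ≥0∞) * I ≤ besov u := le_trans (by gcongr) h1
  exact absurd hn (not_lt.2 h3)

theorem summ2 : Summable fun j : ℕ => (j : ℝ) ^ 2 * (1 / 2) ^ j :=
  summable_pow_mul_geometric_of_norm_lt_one 2 (by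
    rw [Real.norm_eq_abs, abs_of_pos] <;> norm_num)

theorem S_lt_top : ∑' j : ℕ, ENNReal.ofReal ((j : ℝ) ^ 2 * (1 / 2) ^ j) ≠ ⊤ := by
  rw [← ENNReal.ofReal_tsum_of_nonneg (fun j => by positivity) summ2]
  exact ENNReal.ofReal_ne_top

theorem piece_enorm (j : ℕ) (x : ℝ) : ‖piece psi j x‖ₑ = (j : ℝ≥0∞) * ‖psi (N j * (x - 3 * j))‖ₑ := by
  unfold piece
  rw [enorm_mul]
  congr 1
  rw [← ofReal_norm, Real.norm_eq_abs, Nat.abs_cast, ENNReal.ofReal_natCast]

theorem piece_lint (g : ℝ → ℝ≥0∞) (hg : Measurable g) (j : ℕ) :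
    ∫⁻ x, g (N j * (x - 3 * j)) ≤ ENNReal.ofReal ((1 / 8) ^ j) * ∫⁻ x, g x := by
  rw [lint_scale g hg (N_pos j)]
  gcongr
  have h1 : (8 : ℝ) ^ j ≤ N j := by
    have := N_ge j
    have h2 : (0 : ℝ) ≤ 8 ^ j := by positivity
    linarith
  calc (N j)⁻¹ ≤ (8 ^ j)⁻¹ := inv_anti₀ (by positivity) h1
    _ = (1 / 8) ^ j := by rw [one_div, inv_pow]

theorem L1_bound : ∑' j, ∫⁻ x, ‖piece psi j x‖ₑ ≠ ⊤ := by
  obtain ⟨B, L, hB, hL⟩ := bdd_of psi_smooth psi_compact
  have hI : ∫⁻ x, ‖psi x‖ₑ ≠ ⊤ :=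
    (psi_smooth.continuous.integrable_of_hasCompactSupport psi_compact).2.ne
  have hm : Measurable fun x => ‖psi x‖ₑ := psi_smooth.continuous.measurable.enorm
  have h1 : ∀ j, ∫⁻ x, ‖piece psi j x‖ₑ ≤
      ENNReal.ofReal ((j : ℝ) ^ 2 * (1 / 2) ^ j) * ∫⁻ x, ‖psi x‖ₑ := by
    intro j
    simp_rw [piece_enorm]
    rw [lintegral_const_mul' _ _ (ENNReal.natCast_ne_top j)]
    calc (j : ℝ≥0∞) * ∫⁻ x, ‖psi (N j * (x - 3 * j))‖ₑ ≤
        (j : ℝ≥0∞) * (ENNReal.ofReal ((1 / 8) ^ j) * ∫⁻ x, ‖psi x‖ₑ) := by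
          gcongr
          exact piece_lint _ hm j
      _ = ENNReal.ofReal (j * (1 / 8) ^ j) * ∫⁻ x, ‖psi x‖ₑ := by
          rw [ENNReal.ofReal_mul (by positivity), ENNReal.ofReal_natCast, mul_assoc]
      _ ≤ _ := by
          gcongr
          · exact_mod_cast Nat.le_self_pow (by norm_num) j
          · norm_num
  refine ne_top_of_le_ne_top ?_ (ENNReal.tsum_le_tsum h1)
  rw [ENNReal.tsum_mul_right]
  exact ENNReal.mul_ne_top S_lt_top hI

theorem u_enorm (x : ℝ) : ‖u x‖ₑ ^ 2 ≤ ∑' j, 2 ^ (j + 1) * ‖piece psi j x‖ₑ ^ 2 := by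
  refine le_trans ?_ (sq_tsum_le _)
  exact pow_le_pow_left₀ zero_le enorm_tsum_le_tsum_enorm 2

theorem u_memLp : MemLp u 2 := by
  refine ⟨u_meas.aestronglyMeasurable, ?_⟩
  have hm : Measurable fun x => ‖psi x‖ₑ ^ 2 := by
    have := psi_smooth.continuous
    fun_prop
  have hI : ∫⁻ x, ‖psi x‖ₑ ^ 2 ≠ ⊤ := by
    have h1 : MemLp psi 2 := psi_smooth.continuous.memLp_of_hasCompactSupport psi_compact
    have h2 := lintegral_rpow_enorm_lt_top_of_eLpNorm_lt_top (by norm_num) (by norm_num) h1.2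
    have h3 : ∫⁻ x, ‖psi x‖ₑ ^ 2 = ∫⁻ x, ‖psi x‖ₑ ^ (ENNReal.toReal 2) := by
      refine lintegral_congr fun x => ?_
      norm_num
    rw [h3]
    exact h2.ne
  have h1 : ∀ j : ℕ, ∫⁻ x, 2 ^ (j + 1) * ‖piece psi j x‖ₑ ^ 2 ≤
      2 * ENNReal.ofReal ((j : ℝ) ^ 2 * (1 / 2) ^ j) * ∫⁻ x, ‖psi x‖ₑ ^ 2 := by
    intro j
    simp_rw [piece_enorm, mul_pow]
    rw [lintegral_const_mul' _ _ (by finiteness), lintegral_const_mul' _ _ (by finiteness)]
    calc (2 : ℝ≥0∞) ^ (j + 1) * ((j : ℝ≥0∞) ^ 2 * ∫⁻ x, ‖psi (N j * (x - 3 * j))‖ₑ ^ 2) ≤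
        2 ^ (j + 1) * ((j : ℝ≥0∞) ^ 2 * (ENNReal.ofReal ((1 / 8) ^ j) * ∫⁻ x, ‖psi x‖ₑ ^ 2)) := by
          gcongr
          exact piece_lint (fun t => ‖psi t‖ₑ ^ 2) hm j
      _ = 2 * ENNReal.ofReal ((j : ℝ) ^ 2 * (1 / 4) ^ j) * ∫⁻ x, ‖psi x‖ₑ ^ 2 := by
          have e1 : ENNReal.ofReal ((j : ℝ) ^ 2 * (1 / 4) ^ j) =
              (j : ℝ≥0∞) ^ 2 * (2 ^ j * ENNReal.ofReal ((1 / 8) ^ j)) := by
            rw [ENNReal.ofReal_mul (by positivity), ENNReal.ofReal_pow (by positivity),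
              ENNReal.ofReal_natCast]
            congr 1
            have : (1 / 4 : ℝ) ^ j = 2 ^ j * (1 / 8) ^ j := by
              rw [← mul_pow]; norm_num
            rw [this, ENNReal.ofReal_mul (by positivity), ENNReal.ofReal_pow (by norm_num)]
            simp
          rw [e1, pow_succ]
          ring
      _ ≤ _ := by
          gcongr
          norm_num
  have h2 : ∫⁻ x, ‖u x‖ₑ ^ 2 < ⊤ := by
    calc ∫⁻ x, ‖u x‖ₑ ^ 2 ≤ ∫⁻ x, ∑' j, 2 ^ (j + 1) * ‖piece psi j x‖ₑ ^ 2 :=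
          lintegral_mono u_enorm
      _ = ∑' j, ∫⁻ x, 2 ^ (j + 1) * ‖piece psi j x‖ₑ ^ 2 := by
          refine lintegral_tsum fun j => ?_
          have := piece_smooth psi psi_smooth.continuous j
          fun_prop
      _ ≤ ∑' j : ℕ, 2 * ENNReal.ofReal ((j : ℝ) ^ 2 * (1 / 2) ^ j) * ∫⁻ x, ‖psi x‖ₑ ^ 2 :=
          ENNReal.tsum_le_tsum h1
      _ = 2 * (∑' j : ℕ, ENNReal.ofReal ((j : ℝ) ^ 2 * (1 / 2) ^ j)) * ∫⁻ x, ‖psi x‖ₑ ^ 2 := by
          rw [ENNReal.tsum_mul_right, ENNReal.tsum_mul_left]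
      _ < ⊤ := (ENNReal.mul_ne_top (ENNReal.mul_ne_top (by norm_num) S_lt_top) hI).lt_top
  rw [eLpNorm_lt_top_iff_lintegral_rpow_enorm_lt_top (by norm_num) (by norm_num)]
  have h3 : ∫⁻ x, ‖u x‖ₑ ^ (ENNReal.toReal 2) = ∫⁻ x, ‖u x‖ₑ ^ 2 := by
    refine lintegral_congr fun x => ?_
    norm_num
  rw [h3]
  exact h2

/-! ### mollification of `u` -/

theorem mol_meas {ζ f : ℝ → ℝ} (hζ : Measurable ζ) (hf : Continuous f) (ε : ℝ) :
    Measurable (mollify ζ ε f) := by
  have h1 : Measurable fun p : ℝ × ℝ => ζ p.2 * f (p.1 - ε * p.2) := by fun_prop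
  exact (h1.stronglyMeasurable.integral_prod_right (ν := volume)).measurable

theorem mol_const {ζ f : ℝ → ℝ} (c ε : ℝ) :
    mollify ζ ε (fun x => c * f x) = fun x => c * mollify ζ ε f x := by
  funext x
  unfold mollify
  rw [← integral_const_mul]
  congr 1
  funext z
  ring

theorem gag_mol_u {ζ : ℝ → ℝ} (hζm : Measurable ζ) (hζ : Integrable ζ) (ε : ℝ) :
    gagliardo (mollify ζ ε u) ≤
      ∑' j : ℕ, 2 ^ (j + 1) * gagliardo (mollify ζ ε (piece psi j)) := by
  have hpm : ∀ j, Measurable (piece psi j) := fun j =>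
    (piece_smooth psi psi_smooth.continuous j).measurable
  -- almost everywhere absolute convergence
  have hG : ∀ᵐ x : ℝ, ∑' j, ∫⁻ z, ‖ζ z * piece psi j (x - ε * z)‖ₑ ≠ ⊤ := by
    have h0 : ∀ j, Measurable fun x : ℝ => ∫⁻ z, ‖ζ z * piece psi j (x - ε * z)‖ₑ := by
      intro j
      have h1 : Measurable fun p : ℝ × ℝ => ‖ζ p.2 * piece psi j (p.1 - ε * p.2)‖ₑ := by
        have := hpm j
        fun_prop
      exact h1.lintegral_prod_right'
    have h1 : ∫⁻ x, ∑' j, ∫⁻ z, ‖ζ z * piece psi j (x - ε * z)‖ₑ ≠ ⊤ := by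
      rw [lintegral_tsum fun j => (h0 j).aemeasurable]
      have h2 : ∀ j, ∫⁻ x, ∫⁻ z, ‖ζ z * piece psi j (x - ε * z)‖ₑ =
          (∫⁻ z, ‖ζ z‖ₑ) * ∫⁻ x, ‖piece psi j x‖ₑ := by
        intro j
        rw [lintegral_lintegral_swap (by
          refine Measurable.aemeasurable ?_
          have h1 : Measurable fun p : ℝ × ℝ => ‖ζ p.2 * piece psi j (p.1 - ε * p.2)‖ₑ := by
            have := hpm j
            fun_prop
          exact h1)]
        rw [← lintegral_mul_const _ hζm.enorm]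
        refine lintegral_congr fun z => ?_
        simp_rw [enorm_mul]
        rw [lintegral_const_mul' _ _ enorm_ne_top,
          lintegral_sub_right_eq_self (fun x => ‖piece psi j x‖ₑ) (ε * z)]
      simp_rw [h2]
      rw [ENNReal.tsum_mul_left]
      exact ENNReal.mul_ne_top hζ.2.ne L1_bound
    have h3 := ae_lt_top (Measurable.tsum h0) h1
    filter_upwards [h3] with x hx
    exact hx.ne
  have hval : ∀ x, ∑' j, ∫⁻ z, ‖ζ z * piece psi j (x - ε * z)‖ₑ ≠ ⊤ →
      HasSum (fun j => mollify ζ ε (piece psi j) x) (mollify ζ ε u x) := by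
    intro x hx
    have h1 : mollify ζ ε u x = ∑' j, mollify ζ ε (piece psi j) x := by
      unfold mollify
      rw [← integral_tsum (fun j => by
        refine Measurable.aestronglyMeasurable ?_
        have := hpm j
        fun_prop) hx]
      refine integral_congr_ae (Eventually.of_forall fun z => ?_)
      simp only
      rw [tsum_mul_left]
      rfl
    rw [h1]
    refine Summable.hasSum ?_
    have h2 : ∑' j, ‖mollify ζ ε (piece psi j) x‖ₑ ≠ ⊤ :=
      ne_top_of_le_ne_top hx (ENNReal.tsum_le_tsum fun j => enorm_integral_le_lintegral_enorm _)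
    refine Summable.of_norm ?_
    have h3 := ENNReal.summable_toReal h2
    simpa using h3
  have hpt : ∀ x y, ∑' j, ∫⁻ z, ‖ζ z * piece psi j (x - ε * z)‖ₑ ≠ ⊤ →
      ∑' j, ∫⁻ z, ‖ζ z * piece psi j (y - ε * z)‖ₑ ≠ ⊤ →
      ENNReal.ofReal (|mollify ζ ε u x - mollify ζ ε u y| ^ 2 / |x - y| ^ 2) ≤
      ∑' j, 2 ^ (j + 1) * ENNReal.ofReal
        (|mollify ζ ε (piece psi j) x - mollify ζ ε (piece psi j) y| ^ 2 / |x - y| ^ 2) := by
    intro x y hx hy
    have h1 := (hval x hx).sub (hval y hy)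
    have h2 : ‖mollify ζ ε u x - mollify ζ ε u y‖ₑ ^ 2 ≤ ∑' j, 2 ^ (j + 1) *
        ‖mollify ζ ε (piece psi j) x - mollify ζ ε (piece psi j) y‖ₑ ^ 2 := by
      rw [← h1.tsum_eq]
      refine le_trans ?_ (sq_tsum_le _)
      exact pow_le_pow_left₀ zero_le enorm_tsum_le_tsum_enorm 2
    have e : ∀ a b : ℝ, ENNReal.ofReal (|a| ^ 2 / b) = ‖a‖ₑ ^ 2 * ENNReal.ofReal b⁻¹ := by
      intro a b
      rw [div_eq_mul_inv, ENNReal.ofReal_mul (by positivity), ENNReal.ofReal_pow (abs_nonneg _),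
        ← Real.norm_eq_abs, ofReal_norm]
    simp_rw [e, ← mul_assoc]
    rw [ENNReal.tsum_mul_right]
    gcongr
  unfold gagliardo
  calc ∫⁻ x, ∫⁻ y, ENNReal.ofReal (|mollify ζ ε u x - mollify ζ ε u y| ^ 2 / |x - y| ^ 2)
      ≤ ∫⁻ x, ∫⁻ y, ∑' j, 2 ^ (j + 1) * ENNReal.ofReal
        (|mollify ζ ε (piece psi j) x - mollify ζ ε (piece psi j) y| ^ 2 / |x - y| ^ 2) := by
        refine lintegral_mono_ae ?_
        filter_upwards [hG] with x hx
        refine lintegral_mono_ae ?_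
        filter_upwards [hG] with y hy
        exact hpt x y hx hy
    _ = ∑' j, 2 ^ (j + 1) * ∫⁻ x, ∫⁻ y, ENNReal.ofReal
        (|mollify ζ ε (piece psi j) x - mollify ζ ε (piece psi j) y| ^ 2 / |x - y| ^ 2) := by
        have hk : ∀ j, Measurable fun p : ℝ × ℝ => ENNReal.ofReal
            (|mollify ζ ε (piece psi j) p.1 - mollify ζ ε (piece psi j) p.2| ^ 2 /
              |p.1 - p.2| ^ 2) := fun j =>
          kern_meas (mol_meas hζm (piece_smooth psi psi_smooth.continuous j) ε)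
        have e1 : ∀ x, ∫⁻ y, ∑' j, 2 ^ (j + 1) * ENNReal.ofReal
            (|mollify ζ ε (piece psi j) x - mollify ζ ε (piece psi j) y| ^ 2 / |x - y| ^ 2) =
            ∑' j, 2 ^ (j + 1) * ∫⁻ y, ENNReal.ofReal
            (|mollify ζ ε (piece psi j) x - mollify ζ ε (piece psi j) y| ^ 2 / |x - y| ^ 2) := by
          intro x
          rw [lintegral_tsum (f := fun (j : ℕ) (y : ℝ) => 2 ^ (j + 1) * ENNReal.ofReal
            (|mollify ζ ε (piece psi j) x - mollify ζ ε (piece psi j) y| ^ 2 / |x - y| ^ 2))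
            fun j => Measurable.aemeasurable (((hk j).comp
            (measurable_const.prodMk measurable_id : Measurable fun y : ℝ => (x, y))).const_mul _)]
          refine tsum_congr fun j => ?_
          exact lintegral_const_mul' _ _ (by finiteness)
        simp_rw [e1]
        rw [lintegral_tsum (f := fun (j : ℕ) (x : ℝ) => 2 ^ (j + 1) * ∫⁻ y, ENNReal.ofReal
            (|mollify ζ ε (piece psi j) x - mollify ζ ε (piece psi j) y| ^ 2 / |x - y| ^ 2))
            fun j => Measurable.aemeasurable (((hk j).lintegral_prod_right').const_mul _)]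
        refine tsum_congr fun j => ?_
        exact lintegral_const_mul' _ _ (by finiteness)

theorem deriv_trade {η η' : ℝ → ℝ} (h : HasWeakDeriv η η') {ε : ℝ} (hε : 0 < ε) (j : ℕ) :
    mollify η ε (piece psi j) = fun x => (ε * N j)⁻¹ * mollify η' ε (piece Psi j) x := by
  funext x
  have hN := N_pos j
  set φ : ℝ → ℝ := fun z => Psi (N j * (x - ε * z - 3 * j)) with hφd
  have hφ : ContDiff ℝ ∞ φ := Psi_smooth.comp (by fun_prop)
  have hc : HasCompactSupport φ := by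
    refine HasCompactSupport.intro (K := Icc ((x - 3 * j - 1) / ε) ((x - 3 * j + 1) / ε))
      isCompact_Icc fun z hz => ?_
    apply Psi_zero
    by_contra hcon
    apply hz
    rw [not_lt, abs_mul, abs_of_pos hN] at hcon
    have h1 : |x - ε * z - 3 * j| ≤ 1 := by
      have := N_ge_two j
      nlinarith [abs_nonneg (x - ε * z - 3 * j)]
    rw [abs_le] at h1
    constructor
    · rw [div_le_iff₀ hε]; linarith
    · rw [le_div_iff₀ hε]; linarith
  have hd : ∀ z, deriv φ z = -(ε * N j) * psi (N j * (x - ε * z - 3 * j)) := by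
    intro z
    have h1 : HasDerivAt Psi (psi (N j * (x - ε * z - 3 * j))) (N j * (x - ε * z - 3 * j)) :=
      (Psi_smooth.differentiable (by simp) _).hasDerivAt
    have h2 : HasDerivAt (fun z : ℝ => N j * (x - ε * z - 3 * j)) (-(ε * N j)) z := by
      have h3 := (((((hasDerivAt_id z).const_mul ε).const_sub x).sub_const (3 * (j : ℝ))).const_mul
        (N j))
      convert! h3 using 1
      ring
    have h4 : deriv φ z = psi (N j * (x - ε * z - 3 * j)) * (-(ε * N j)) := (h1.comp z h2).deriv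
    rw [h4]
    ring
  have h3 := h.parts φ hφ hc
  simp_rw [hd] at h3
  have e1 : ∫ z, η z * (-(ε * N j) * psi (N j * (x - ε * z - 3 * j))) =
      -(ε * N j) * ∫ z, η z * psi (N j * (x - ε * z - 3 * j)) := by
    rw [← integral_const_mul]
    congr 1
    funext z
    ring
  rw [e1] at h3
  have e2 : mollify η ε (piece psi j) x = j * ∫ z, η z * psi (N j * (x - ε * z - 3 * j)) := by
    unfold mollify piece
    rw [← integral_const_mul]
    congr 1
    funext z
    ring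
  have e3 : mollify η' ε (piece Psi j) x = j * ∫ z, η' z * φ z := by
    unfold mollify piece
    rw [← integral_const_mul]
    congr 1
    funext z
    simp only [hφd]
    ring
  rw [e2, e3]
  have h5 : (ε * N j) * ∫ z, η z * psi (N j * (x - ε * z - 3 * j)) = ∫ z, η' z * φ z := by
    linarith
  rw [← h5]
  field_simp

theorem scale_bound {ε : ℝ} (hε : 0 < ε) (hε1 : ε ≤ Real.exp (-1)) (j : ℕ) :
    1 ≤ 8 * |Real.log ε| * (1 / 4) ^ j ∨
      ((ε * N j)⁻¹) ^ 2 ≤ 8 * |Real.log ε| * (1 / 4) ^ j := by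
  have hlog : Real.log ε ≤ -1 := by
    have := Real.log_le_log hε hε1
    rwa [Real.log_exp] at this
  have hL : |Real.log ε| = - Real.log ε := abs_of_nonpos (by linarith)
  set L : ℝ := |Real.log ε| with hLd
  have hL1 : 1 ≤ L := by linarith
  have ht0 : (0 : ℝ) < 4 ^ j := by positivity
  have hq : (1 / 4 : ℝ) ^ j = (4 ^ j)⁻¹ := by rw [one_div, inv_pow]
  rw [hq]
  rcases le_or_gt ((4 : ℝ) ^ j) (8 * L) with h | h
  · left
    rw [← div_eq_mul_inv, le_div_iff₀ ht0]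
    linarith
  · right
    have hN := N_pos j
    have hp : 0 < ε * N j := by positivity
    have h1 : Real.log (ε * N j) = -L + 4 ^ j * Real.log 2 := by
      rw [Real.log_mul hε.ne' hN.ne']
      unfold N
      rw [Real.log_pow]
      push_cast
      linarith
    have h2 : (4 : ℝ) ^ j ≤ 2 * Real.log (ε * N j) := by
      rw [h1]
      have := Real.log_two_gt_d9
      nlinarith
    have h3 : (4 : ℝ) ^ j ≤ (ε * N j) ^ 2 := by
      have h4 : (ε * N j) ^ 2 = Real.exp (2 * Real.log (ε * N j)) := by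
        rw [two_mul, Real.exp_add, Real.exp_log hp, sq]
      rw [h4]
      have h5 := Real.add_one_le_exp (2 * Real.log (ε * N j))
      linarith
    rw [inv_pow]
    calc ((ε * N j) ^ 2)⁻¹ ≤ (4 ^ j)⁻¹ := inv_anti₀ ht0 h3
      _ ≤ 8 * L * (4 ^ j)⁻¹ := by
        have : 0 < ((4 : ℝ) ^ j)⁻¹ := by positivity
        nlinarith

theorem mol_congr {η ζ : ℝ → ℝ} (h : η =ᵐ[volume] ζ) (ε : ℝ) (f : ℝ → ℝ) :
    mollify η ε f = mollify ζ ε f := by
  funext x
  unfold mollify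
  refine integral_congr_ae ?_
  filter_upwards [h] with z hz
  rw [hz]

theorem gag_fin {F : ℝ → ℝ} (h1 : ContDiff ℝ ∞ F) (h2 : HasCompactSupport F)
    (h3 : ∀ x, 1 / 2 < |x| → F x = 0) : gagliardo F < ⊤ := by
  obtain ⟨B, L, hB, hL⟩ := bdd_of h1 h2
  exact gag_finite hB hL h3

theorem gag_piece {F : ℝ → ℝ} (hF : Continuous F) (j : ℕ) :
    gagliardo (piece F j) = ENNReal.ofReal ((j : ℝ) ^ 2) * gagliardo F :=
  gag_scale hF.measurable (j : ℝ) (3 * j) (N_pos j)

theorem piece_bdd {F : ℝ → ℝ} (h1 : ContDiff ℝ ∞ F) (h2 : HasCompactSupport F) (j : ℕ) :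
    ∃ B : ℝ, ∀ x, |piece F j x| ≤ B := by
  obtain ⟨B, L, hB, -⟩ := bdd_of h1 h2
  refine ⟨j * B, fun x => ?_⟩
  unfold piece
  rw [abs_mul, Nat.abs_cast]
  exact mul_le_mul_of_nonneg_left (hB _) (Nat.cast_nonneg j)

theorem ofReal_help (K : ℝ≥0∞) {a b c : ℝ} (ha : 0 ≤ a) (hb : 0 ≤ b) :
    ENNReal.ofReal a * (K * (ENNReal.ofReal b * ENNReal.ofReal c)) =
      K * ENNReal.ofReal (a * (b * c)) := by
  rw [ENNReal.ofReal_mul ha, ENNReal.ofReal_mul hb]
  ring

theorem growth {η η' : ℝ → ℝ} (h : HasWeakDeriv η η') :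
    ∃ K : ℝ≥0∞, K < ⊤ ∧ ∀ ε : ℝ, 0 < ε → ε ≤ Real.exp (-1) →
      gagliardo (mollify η ε u) ≤ K * ENNReal.ofReal |Real.log ε| := by
  set K₀ : ℝ≥0∞ := (∫⁻ z, ‖η z‖ₑ) ^ 2 * gagliardo psi + (∫⁻ z, ‖η' z‖ₑ) ^ 2 * gagliardo Psi with hK
  have hψ : gagliardo psi < ⊤ := gag_fin psi_smooth psi_compact fun x hx => psi_zero (by linarith)
  have hΨ : gagliardo Psi < ⊤ := gag_fin Psi_smooth Psi_compact fun x hx => Psi_zero (by linarith)
  have hK0 : K₀ < ⊤ := by
    rw [hK, ENNReal.add_lt_top]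
    exact ⟨ENNReal.mul_lt_top (ENNReal.pow_lt_top h.int.2) hψ,
      ENNReal.mul_lt_top (ENNReal.pow_lt_top h.int'.2) hΨ⟩
  set S : ℝ≥0∞ := ∑' j : ℕ, ENNReal.ofReal ((j : ℝ) ^ 2 * (1 / 2) ^ j) with hS
  refine ⟨16 * K₀ * S, ?_, fun ε hε hε1 => ?_⟩
  · exact ENNReal.mul_lt_top (ENNReal.mul_lt_top (by norm_num) hK0) S_lt_top.lt_top
  have hpc : ∀ j, gagliardo (mollify η ε (piece psi j)) ≤
      K₀ * (ENNReal.ofReal ((j : ℝ) ^ 2) * ENNReal.ofReal (8 * |Real.log ε| * (1 / 4) ^ j)) := by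
    intro j
    rcases scale_bound hε hε1 j with h1 | h1
    · obtain ⟨B, hB⟩ := piece_bdd psi_smooth psi_compact j
      calc gagliardo (mollify η ε (piece psi j)) ≤
          (∫⁻ z, ‖η z‖ₑ) ^ 2 * gagliardo (piece psi j) :=
            gag_mollify h.int (piece_smooth psi psi_smooth.continuous j) hB ε
        _ = ((∫⁻ z, ‖η z‖ₑ) ^ 2 * gagliardo psi) * (ENNReal.ofReal ((j : ℝ) ^ 2) * 1) := by
            rw [gag_piece psi_smooth.continuous]
            ring
        _ ≤ _ := by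
            gcongr
            · exact le_self_add
            · rw [← ENNReal.ofReal_one]
              exact ENNReal.ofReal_le_ofReal h1
    · obtain ⟨B, hB⟩ := piece_bdd Psi_smooth Psi_compact j
      have hg : ∀ (c : ℝ) (F : ℝ → ℝ), gagliardo (fun x => c * F x) =
          ENNReal.ofReal (c ^ 2) * gagliardo F := by
        intro c F
        unfold gagliardo
        rw [← lintegral_const_mul' _ _ ENNReal.ofReal_ne_top]
        refine lintegral_congr fun x => ?_
        rw [← lintegral_const_mul' _ _ ENNReal.ofReal_ne_top]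
        refine lintegral_congr fun y => ?_
        rw [← ENNReal.ofReal_mul (by positivity), ← mul_sub, abs_mul, mul_pow, sq_abs c, mul_div_assoc]
      calc gagliardo (mollify η ε (piece psi j)) =
          ENNReal.ofReal (((ε * N j)⁻¹) ^ 2) * gagliardo (mollify η' ε (piece Psi j)) := by
            rw [deriv_trade h hε j, hg]
        _ ≤ ENNReal.ofReal (((ε * N j)⁻¹) ^ 2) *
            ((∫⁻ z, ‖η' z‖ₑ) ^ 2 * gagliardo (piece Psi j)) := by
            gcongr
            exact gag_mollify h.int' (piece_smooth Psi Psi_smooth.continuous j) hB ε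
        _ = ((∫⁻ z, ‖η' z‖ₑ) ^ 2 * gagliardo Psi) * (ENNReal.ofReal ((j : ℝ) ^ 2) *
            ENNReal.ofReal (((ε * N j)⁻¹) ^ 2)) := by
            rw [gag_piece Psi_smooth.continuous]
            ring
        _ ≤ _ := by
            gcongr
            exact le_add_self
  obtain ⟨ζ, hζm, hζ⟩ := h.int.1.aemeasurable
  have hζi : Integrable ζ := h.int.congr hζ
  calc gagliardo (mollify η ε u) = gagliardo (mollify ζ ε u) := by rw [mol_congr hζ]
    _ ≤ ∑' j : ℕ, 2 ^ (j + 1) * gagliardo (mollify ζ ε (piece psi j)) := gag_mol_u hζm hζi ε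
    _ = ∑' j : ℕ, 2 ^ (j + 1) * gagliardo (mollify η ε (piece psi j)) := by
        simp_rw [mol_congr hζ]
    _ ≤ ∑' j : ℕ, 2 ^ (j + 1) * (K₀ * (ENNReal.ofReal ((j : ℝ) ^ 2) *
        ENNReal.ofReal (8 * |Real.log ε| * (1 / 4) ^ j))) :=
        ENNReal.tsum_le_tsum fun j => by
          gcongr
          exact hpc j
    _ = ∑' j : ℕ, (16 * K₀ * ENNReal.ofReal |Real.log ε|) *
        ENNReal.ofReal ((j : ℝ) ^ 2 * (1 / 2) ^ j) := by
        refine tsum_congr fun j => ?_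
        have e1 : (2 : ℝ≥0∞) ^ (j + 1) = ENNReal.ofReal (2 ^ (j + 1)) := by
          rw [ENNReal.ofReal_pow (by norm_num)]
          simp
        have e2 : (16 : ℝ≥0∞) = ENNReal.ofReal 16 := by simp
        rw [e1, e2]
        have e3 : ENNReal.ofReal (2 ^ (j + 1)) * (K₀ * (ENNReal.ofReal ((j : ℝ) ^ 2) *
            ENNReal.ofReal (8 * |Real.log ε| * (1 / 4) ^ j))) =
            K₀ * ENNReal.ofReal (2 ^ (j + 1) * ((j : ℝ) ^ 2 * (8 * |Real.log ε| * (1 / 4) ^ j))) :=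
          ofReal_help _ (by positivity) (by positivity)
        have e4 : ENNReal.ofReal 16 * K₀ * ENNReal.ofReal |Real.log ε| *
            ENNReal.ofReal ((j : ℝ) ^ 2 * (1 / 2) ^ j) =
            K₀ * ENNReal.ofReal (16 * (|Real.log ε| * ((j : ℝ) ^ 2 * (1 / 2) ^ j))) := by
          rw [← ofReal_help _ (by norm_num) (abs_nonneg _)]
          ring
        rw [e3, e4]
        congr 2
        have e5 : (1 / 2 : ℝ) ^ j = 2 ^ j * (1 / 4) ^ j := by
          rw [← mul_pow]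
          norm_num
        rw [e5, pow_succ]
        ring
    _ = 16 * K₀ * S * ENNReal.ofReal |Real.log ε| := by
        rw [ENNReal.tsum_mul_left, ← hS]
        ring

theorem result : ∃ u : ℝ → ℝ, MemLp u 2 ∧
    (∀ η : ℝ → ℝ, (∃ η' : ℝ → ℝ, HasWeakDeriv η η') →
      limsup (fun ε : ℝ => gagliardo (mollify η ε u) / ENNReal.ofReal |Real.log ε|) (𝓝[>] 0) < ⊤) ∧
    besov u = ⊤ := by
  refine ⟨u, u_memLp, ?_, besov_top⟩
  rintro η ⟨η', h⟩
  obtain ⟨K, hK, hb⟩ := growth h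
  refine lt_of_le_of_lt (limsup_le_of_le (by isBoundedDefault) (a := K) ?_) hK
  have h1 : Ioc (0 : ℝ) (Real.exp (-1)) ∈ 𝓝[>] (0 : ℝ) :=
    Ioc_mem_nhdsGT (Real.exp_pos _)
  filter_upwards [h1] with ε hε
  exact ENNReal.div_le_of_le_mul (hb ε hε.1 hε.2)

end Pool.Agent.Results.MP_498700_an.LacunaryBumps
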